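import Pool.Agent.U29.DZ.Stm

/-! Project DZ (leader helper29), package THR: the choice of the thresholds. With `X j ≥ C j` the first term at `x` in shell `j` is at most
`(2 + |x|) ^ (-2)`, and with `X (j + 2) ^ (θ j) ≥ C j / (1 - lam j) * (2 + X (j + 1)) ^ 3` the second is at most `(2 + |x|) ^ (-2)`. -/

set_option autoImplicit false

namespace Pool.Agent.U857.DZ

open Finset Filter Pool.Agent.U29.DZ

theorem summ : Summable (fun x : ℤ => 1 / (2 + |(x : ℝ)|) ^ 2) := by
  have h : Summable (fun n : ℕ => 1 / (2 + (n : ℝ)) ^ 2) := by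
    have h1 := (summable_nat_add_iff 2).2 (Real.summable_one_div_nat_pow.2 (by norm_num : 1 < 2))
    refine h1.congr fun n => ?_
    push_cast
    rw [add_comm]
  refine Summable.of_nat_of_neg ?_ ?_
  · refine h.congr fun n => ?_
    simp
  · refine h.congr fun n => ?_
    simp

/-- the recursion -/
noncomputable def stepX (M₀ C lam θ H : ℕ → ℝ) (j : ℕ) (y : ℝ) : ℝ :=
  max (y + 1) (max (C (j + 1)) (max (M₀ (j + 1)) (max (H (j + 1))
    ((C (j - 1) / (1 - lam (j - 1)) * (2 + y) ^ 3) ^ (1 / θ (j - 1))))))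

/-- the thresholds -/
noncomputable def thr (M₀ C lam θ H : ℕ → ℝ) : ℕ → ℝ
  | 0 => max (C 0) (max (M₀ 0) (H 0))
  | j + 1 => stepX M₀ C lam θ H j (thr M₀ C lam θ H j)

theorem first {c l t a X : ℝ} (hl : 0 < l) (hl1 : l < 1) (ht : 0 < t) (ht1 : t < 1) (hc : 0 < c)
    (hcX : c ≤ X) (hXa : X ≤ a) :
    c * l ^ (⌈4 / Real.log (1 / l) * Real.log (2 + a)⌉₊) * a ^ t ≤ 1 / (2 + a) ^ 2 := by
  have ha : 0 < a := by linarith
  have hlog : Real.log (1 / l) = -Real.log l := by rw [one_div, Real.log_inv]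
  have hln : Real.log l < 0 := Real.log_neg hl hl1
  have h2a : 0 < 2 + a := by linarith
  have hlog2 : 0 < Real.log (2 + a) := Real.log_pos (by linarith)
  have h1 : l ^ (⌈4 / Real.log (1 / l) * Real.log (2 + a)⌉₊) ≤ 1 / (2 + a) ^ 4 := by
    have hn := Nat.le_ceil (4 / Real.log (1 / l) * Real.log (2 + a))
    generalize (⌈4 / Real.log (1 / l) * Real.log (2 + a)⌉₊) = n at hn ⊢
    have h3 : (n : ℝ) * Real.log l ≤ -(4 * Real.log (2 + a)) := by
      rw [hlog] at hn
      have h4 : 4 / -Real.log l * Real.log (2 + a) * (-Real.log l) ≤ n * (-Real.log l) :=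
        mul_le_mul_of_nonneg_right hn (by linarith)
      have h5 : 4 / -Real.log l * Real.log (2 + a) * (-Real.log l) = 4 * Real.log (2 + a) := by
        rw [mul_right_comm, div_mul_cancel₀ _ (by linarith : -Real.log l ≠ 0)]
      linarith
    have h6 : Real.log (l ^ n) ≤ Real.log (1 / (2 + a) ^ 4) := by
      rw [Real.log_pow, one_div, Real.log_inv, Real.log_pow]
      push_cast
      exact h3
    exact (Real.log_le_log_iff (pow_pos hl n) (by positivity)).1 h6
  have h2 : a ^ t ≤ 2 + a := by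
    calc a ^ t ≤ (2 + a) ^ t := Real.rpow_le_rpow ha.le (by linarith) ht.le
      _ ≤ (2 + a) ^ (1 : ℝ) := Real.rpow_le_rpow_of_exponent_le (by linarith) ht1.le
      _ = 2 + a := Real.rpow_one _
  calc c * l ^ (⌈4 / Real.log (1 / l) * Real.log (2 + a)⌉₊) * a ^ t
      ≤ (2 + a) * (1 / (2 + a) ^ 4) * (2 + a) := by
        refine mul_le_mul (mul_le_mul (by linarith) h1 (by positivity) h2a.le) h2 (by positivity) (by positivity)
    _ = 1 / (2 + a) ^ 2 := by
        field_simp

theorem second {c l t a X Y : ℝ} (hl : 0 < l) (hl1 : l < 1) (ht : 0 < t) (ht1 : t < 1) (hc : 0 < c)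
    (ha : 0 < a) (haX : a < X) (hY : (c / (1 - l) * (2 + X) ^ 3) ^ (1 / t) ≤ Y) :
    ∑' L : ℕ, ENNReal.ofReal (c * l ^ L * a ^ t * Y ^ (-t)) ≤ ENNReal.ofReal (1 / (2 + a) ^ 2) := by
  have h1l : 0 < 1 - l := by linarith
  have hX : 0 < X := by linarith
  have hK : 0 < c / (1 - l) * (2 + X) ^ 3 := by positivity
  have hY0 : 0 < Y := lt_of_lt_of_le (Real.rpow_pos_of_pos hK _) hY
  have h2a : 0 < 2 + a := by linarith
  have h2 : a ^ t ≤ 2 + a := by
    calc a ^ t ≤ (2 + a) ^ t := Real.rpow_le_rpow ha.le (by linarith) ht.le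
      _ ≤ (2 + a) ^ (1 : ℝ) := Real.rpow_le_rpow_of_exponent_le (by linarith) ht1.le
      _ = 2 + a := Real.rpow_one _
  have h3 : c / (1 - l) * (2 + X) ^ 3 ≤ Y ^ t := by
    have h4 := Real.rpow_le_rpow (Real.rpow_pos_of_pos hK (1 / t)).le hY ht.le
    rwa [← Real.rpow_mul hK.le, one_div_mul_cancel ht.ne', Real.rpow_one] at h4
  have hs : HasSum (fun L : ℕ => c * l ^ L * a ^ t * Y ^ (-t)) (c * (1 - l)⁻¹ * a ^ t * Y ^ (-t)) :=
    (((hasSum_geometric_of_lt_one hl.le hl1).mul_left c).mul_right (a ^ t)).mul_right (Y ^ (-t))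
  rw [← ENNReal.ofReal_tsum_of_nonneg (fun L => by positivity) hs.summable, hs.tsum_eq]
  apply ENNReal.ofReal_le_ofReal
  rw [Real.rpow_neg hY0.le]
  have h5 : (Y ^ t)⁻¹ ≤ (c / (1 - l) * (2 + X) ^ 3)⁻¹ := inv_anti₀ hK h3
  calc c * (1 - l)⁻¹ * a ^ t * (Y ^ t)⁻¹ ≤ c * (1 - l)⁻¹ * (2 + a) * (c / (1 - l) * (2 + X) ^ 3)⁻¹ := by
        refine mul_le_mul (mul_le_mul_of_nonneg_left h2 (by positivity)) h5 (by positivity) (by positivity)
    _ = (2 + a) / (2 + X) ^ 3 := by
        field_simp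
    _ ≤ (2 + a) / (2 + a) ^ 3 := by
        refine div_le_div_of_nonneg_left h2a.le (by positivity) (pow_le_pow_left₀ h2a.le (by linarith) 3)
    _ = 1 / (2 + a) ^ 2 := by
        field_simp

theorem t_THR : S_IDX → S_THR := by
  intro hidx M₀ C lam θ H h
  have hstep1 : ∀ j y, y + 1 ≤ stepX M₀ C lam θ H j y := fun j y => le_max_left _ _
  have hC : ∀ j, C j ≤ thr M₀ C lam θ H j := by
    intro j
    cases j with
    | zero => exact le_max_left _ _
    | succ j => exact (le_max_left _ _).trans (le_max_right _ _)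
  have hM : ∀ j, M₀ j ≤ thr M₀ C lam θ H j := by
    intro j
    cases j with
    | zero => exact (le_max_left _ _).trans (le_max_right _ _)
    | succ j => exact ((le_max_left _ _).trans (le_max_right _ _)).trans (le_max_right _ _)
  have hH : ∀ j, H j ≤ thr M₀ C lam θ H j := by
    intro j
    cases j with
    | zero => exact (le_max_right _ _).trans (le_max_right _ _)
    | succ j =>
      exact (((le_max_left _ _).trans (le_max_right _ _)).trans (le_max_right _ _)).trans (le_max_right _ _)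
  have hR : ∀ j, (C j / (1 - lam j) * (2 + thr M₀ C lam θ H (j + 1)) ^ 3) ^ (1 / θ j) ≤
      thr M₀ C lam θ H (j + 2) := by
    intro j
    have h1 : thr M₀ C lam θ H (j + 2) = stepX M₀ C lam θ H (j + 1) (thr M₀ C lam θ H (j + 1)) := rfl
    rw [h1]
    unfold stepX
    rw [Nat.add_sub_cancel]
    exact (((le_max_right _ _).trans (le_max_right _ _)).trans (le_max_right _ _)).trans (le_max_right _ _)
  have hstep : ∀ j, thr M₀ C lam θ H j + 1 ≤ thr M₀ C lam θ H (j + 1) := fun j => hstep1 j _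
  have hmono : StrictMono (thr M₀ C lam θ H) := strictMono_nat_of_lt_succ fun j => by linarith [hstep j]
  have htop : Tendsto (thr M₀ C lam θ H) atTop atTop := by
    have h1 : ∀ j : ℕ, (j : ℝ) ≤ thr M₀ C lam θ H j := by
      intro j
      induction j with
      | zero => exact_mod_cast (by linarith [hM 0, (h 0).1] : (0 : ℝ) ≤ thr M₀ C lam θ H 0)
      | succ j ih =>
        push_cast
        linarith [hstep j]
    exact tendsto_atTop_mono h1 tendsto_natCast_atTop_atTop
  refine ⟨thr M₀ C lam θ H, hmono, htop, fun j => ⟨hM j, hH j⟩, ?_⟩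
  obtain ⟨X, hX⟩ : ∃ X, X = thr M₀ C lam θ H := ⟨_, rfl⟩
  rw [← hX] at hC hM hH hR hstep hmono htop ⊢
  have hX0 : 1 ≤ X 0 := (h 0).1.trans (hM 0)
  have hfin : ∑' x : ℤ, ENNReal.ofReal (2 * (1 / (2 + |(x : ℝ)|) ^ 2)) ≠ ⊤ :=
    (summ.mul_left 2).tsum_ofReal_ne_top
  refine ne_top_of_le_ne_top hfin (ENNReal.tsum_le_tsum fun x => ?_)
  split_ifs with hx
  · obtain ⟨i1, i2, -, -⟩ := hidx X hmono htop x
    have i3 := i1 hx
    generalize idx X x = j at i2 i3 ⊢
    obtain ⟨-, c1, l1, l2, t1, t2⟩ := h j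
    have hpos : 0 < |(x : ℝ)| := by linarith
    have e1 := first l1 l2 t1 t2 c1 (hC j) i3
    have e2 := second l1 l2 t1 t2 c1 hpos i2 (hR j)
    rw [two_mul, ENNReal.ofReal_add (by positivity) (by positivity)]
    exact add_le_add (ENNReal.ofReal_le_ofReal e1) e2
  · exact zero_le

end Pool.Agent.U857.DZ
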